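import Mathlib
import Pool.Agent.H728.Tame.Forcing
import Pool.Agent.H728.Tame.Space
import Pool.Graph.R_pool_sql_team_668148b0.Helper937.FuC2

/-!
# Compact images of `C_p(K)` for Fréchet–Urysohn compacta `K`: the question is independent

The combinatorial principle `TameFamily` implies that there is a Fréchet–Urysohn compact (even
scattered) space `K` for which the Tychonoff cube `[0,1]^ω₁` is a continuous image of `C_p(K)`;
so it refutes the statement of the question. The principle is forced by some notion of forcing
which preserves `ω₁`. On the other hand the continuum hypothesis, which is also forced by some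
notion of forcing, implies the statement of the question.
-/

set_option autoImplicit false

namespace Pool.Agent.Results.MP_28859b_gt.Independence

open Cardinal
open Pool.Agent.H728.Tame (TameFamily TameHolds)
open Pool.Agent.Helper292.ForceCH (OmegaOnePreserved CHHolds)

/-- The statement of Q1 (the proposition of the frozen statement `S12915`). -/
def StatementQ1 : Prop :=
  ∀ (K : Type) [TopologicalSpace K] [CompactSpace K] [T2Space K] [FrechetUrysohnSpace K]
      (Y : Type) [TopologicalSpace Y] [CompactSpace Y] [T2Space Y]
      (f : {g : K → ℝ // Continuous g} → Y),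
      Continuous f → Function.Surjective f → TopologicalSpace.MetrizableSpace Y

/-- The well-ordered set of the countable ordinals. -/
abbrev W1 : Type := (Ordinal.omega 1 : Ordinal.{0}).ToType

theorem cube_not_metrizable : ¬ TopologicalSpace.MetrizableSpace (W1 → unitInterval) :=
  Pool.Agent.H33.CImg2.not_metr

/-- **Independence of Q1.** (1) Some notion of forcing forces that `ω₁` is preserved and that
there is a tame family. (2) A tame family gives a Fréchet–Urysohn compact scattered `K` such that
the Tychonoff cube `[0,1]^ω₁` is a continuous image of `C_p(K)`, and (3) then the statement of Q1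
is false. (4) Some notion of forcing forces that `ω₁` is preserved and that CH holds. (5) Under CH
the statement of Q1 is true. -/
theorem result :
    (∃ (P : Type) (_ : Preorder P) (I : Type), Nonempty P ∧
      ∀ p : P, p ∈ OmegaOnePreserved P ∧ p ∈ TameHolds P I) ∧
    (TameFamily → ∃ (K : Type) (_ : TopologicalSpace K),
      CompactSpace K ∧ T2Space K ∧ FrechetUrysohnSpace K ∧
      (∀ S : Set K, S.Nonempty → ∃ x ∈ S, ∃ O : Set K, IsOpen O ∧ O ∩ S = {x}) ∧
      ∃ Ψ : {g : K → ℝ // Continuous g} → (W1 → unitInterval),
        Continuous Ψ ∧ Function.Surjective Ψ) ∧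
    (TameFamily → ¬ StatementQ1) ∧
    (∃ (P : Type) (_ : Preorder P), Nonempty P ∧
      ∀ p : P, p ∈ OmegaOnePreserved P ∧ p ∈ CHHolds P) ∧
    ((2 : Cardinal.{0}) ^ (ℵ₀ : Cardinal.{0}) = ℵ₁ → StatementQ1) := by
  have key : TameFamily → ∃ (K : Type) (_ : TopologicalSpace K),
      CompactSpace K ∧ T2Space K ∧ FrechetUrysohnSpace K ∧
      (∀ S : Set K, S.Nonempty → ∃ x ∈ S, ∃ O : Set K, IsOpen O ∧ O ∩ S = {x}) ∧
      ∃ Ψ : {g : K → ℝ // Continuous g} → (W1 → unitInterval),
        Continuous Ψ ∧ Function.Surjective Ψ :=
    fun h => Pool.Agent.H728.Tame.exists_space h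
  refine ⟨Pool.Agent.H728.Tame.exists_forcing, key, fun hT hQ => ?_, ?_, fun h => ?_⟩
  · obtain ⟨K, _, _, _, _, _, Ψ, h1, h2⟩ := key hT
    exact cube_not_metrizable (hQ K (W1 → unitInterval) Ψ h1 h2)
  · obtain ⟨P, hP, hne, hf⟩ := Pool.Agent.Helper292.ForceCH.exists_forcing
    exact ⟨P, hP, hne, fun p => ⟨(hf p).1, (hf p).2.2⟩⟩
  · intro K _ _ _ _ Y _ _ _ f hf hs
    refine Pool.Agent.Helper937.Dya.main_FU ?_ K Y f hf hs
    rw [h]
    exact Cardinal.cantor _

end Pool.Agent.Results.MP_28859b_gt.Independence
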